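import Mathlib
import Pool.Agent.R4.ST.Basic

/-!
# No edge-connectivity forces an `(s,t)`-triple in a 2-connected graph

For every `L` there is a finite simple graph that is 2-connected and `L`-edge-connected and has no
`(s,t)`-triple for any vertices `s`, `t`.
-/

set_option autoImplicit false

namespace Pool.Agent.Results.MP_bdb63f_co.NoBound

/-- An `(s,t)`-triple of the simple graph `G`: a linear order on the vertices together with two
edge-disjoint spanning trees `I`, `O` of `G`, such that every vertex other than `t` is joined by an
edge of `I` to a larger vertex and every vertex other than `s` is joined by an edge of `O` to a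
smaller vertex. -/
def HasTriple {V : Type} (G : SimpleGraph V) (s t : V) : Prop :=
  ∃ (_ : LinearOrder V) (I O : SimpleGraph V),
    I ≤ G ∧ O ≤ G ∧ I.IsTree ∧ O.IsTree ∧ Disjoint I.edgeSet O.edgeSet ∧
    (∀ v, v ≠ t → ∃ w, I.Adj v w ∧ v < w) ∧
    (∀ v, v ≠ s → ∃ w, O.Adj v w ∧ w < v)

/-- `G` is 2-connected: at least three vertices, connected, and no cut vertex. -/
def TwoConnected {V : Type} [Fintype V] (G : SimpleGraph V) : Prop :=
  3 ≤ Fintype.card V ∧ G.Connected ∧ ∀ w : V, (G.induce ({w}ᶜ : Set V)).Connected

/-- `G` is `L`-edge-connected: it stays connected after deleting fewer than `L` edges. -/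
def EdgeConn {V : Type} (L : ℕ) (G : SimpleGraph V) : Prop :=
  ∀ S : Finset (Sym2 V), S.card < L → (G.deleteEdges (S : Set (Sym2 V))).Connected

/-- For every `L` there is a finite simple graph that is 2-connected and `L`-edge-connected and has
no `(s,t)`-triple for any vertices `s` and `t`. -/
theorem result : ∀ L : ℕ, ∃ (V : Type) (_ : Fintype V) (G : SimpleGraph V),
    TwoConnected G ∧ EdgeConn L G ∧ ∀ s t : V, ¬ HasTriple G s t :=
  Pool.Agent.R4.ST.main

end Pool.Agent.Results.MP_bdb63f_co.NoBound
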